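import Mathlib
import Pool.Agent.H525.EX.Stm7

/-!
# Project EX (helper525), task BRG: general coefficient (helper928)
-/

namespace Pool.Agent.H928.EX

open Polynomial
open Pool.Agent.H525.QF
open Pool.Agent.H525.EX
open scoped Classical

section

variable {K : Type} [Field K] [Fintype K] [CharP K 2]

theorem four_root (c : K) : ∃ d : K, d ^ 4 = c := by
  obtain ⟨a, ha⟩ := (bijective_frobenius K 2).2 c
  obtain ⟨b, hb⟩ := (bijective_frobenius K 2).2 a
  refine ⟨b, ?_⟩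
  rw [frobenius_def] at ha hb
  rw [← ha, ← hb]
  ring

/-- Counting along an injective map of a finite set into a finite set which is not larger. -/
theorem card_filter_tr {A B : Type} (S : Finset A) (R : Finset B) (Φ : A → B)
    (hinj : Function.Injective Φ) (hmap : ∀ v ∈ S, Φ v ∈ R) (hc : R.card ≤ S.card)
    (p : A → Prop) (q : B → Prop) (h : ∀ v ∈ S, (p v ↔ q (Φ v))) :
    (S.filter p).card = (R.filter q).card := by
  have h1 : S.image Φ = R := by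
    apply Finset.eq_of_subset_of_card_le
    · intro w hw
      rw [Finset.mem_image] at hw
      obtain ⟨v, hv, rfl⟩ := hw
      exact hmap v hv
    · rw [Finset.card_image_of_injective _ hinj]
      exact hc
  have h2 : R.filter q = (S.filter p).image Φ := by
    ext w
    rw [Finset.mem_filter, Finset.mem_image, ← h1, Finset.mem_image]
    constructor
    · rintro ⟨⟨v, hv, rfl⟩, hq⟩
      exact ⟨v, Finset.mem_filter.2 ⟨hv, (h v hv).2 hq⟩, rfl⟩
    · rintro ⟨v, hv, rfl⟩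
      rw [Finset.mem_filter] at hv
      exact ⟨⟨v, hv.1, rfl⟩, (h v hv.1).1 hv.2⟩
  rw [h2, Finset.card_image_of_injective _ hinj]

/-- The decomposition `x ^ 2 + X y ^ 2`. -/
noncomputable def T (v : K[X] × K[X]) : K[X] := v.1 ^ 2 + X * v.2 ^ 2

theorem T_der (v : K[X] × K[X]) : derivative (T v) = v.2 ^ 2 := by
  have h2 : (2 : K[X]) = 0 := CharTwo.two_eq_zero
  have e : derivative (T v) = 2 * v.1 * derivative v.1 + v.2 ^ 2 +
      2 * X * v.2 * derivative v.2 := by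
    unfold T
    rw [derivative_add, derivative_mul, derivative_X, derivative_sq, derivative_sq]
    simp only [map_ofNat]
    ring
  rw [e, h2]
  ring

theorem sq_inj' {a b : K[X]} (h : a ^ 2 = b ^ 2) : a = b := by
  have := frobenius_inj K[X] 2
  exact this (by rw [frobenius_def, frobenius_def]; exact h)

theorem T_inj : Function.Injective (T (K := K)) := by
  intro v w h
  have h1 : v.2 = w.2 := by
    apply sq_inj'
    rw [← T_der, ← T_der, h]
  have h2 : v.1 = w.1 := by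
    apply sq_inj'
    unfold T at h
    rw [h1] at h
    exact add_right_cancel h
  exact Prod.ext h2 h1

theorem T_val (α γ : K) (v : K[X] × K[X]) :
    (T v) ^ 2 + (C α * X ^ 2 + X + C γ) * (derivative (T v)) ^ 2 =
      v.1 ^ 4 + (C (1 + α) * X ^ 2 + X + C γ) * v.2 ^ 4 := by
  have h2 : (2 : K[X]) = 0 := CharTwo.two_eq_zero
  rw [T_der]
  unfold T
  have e : (v.1 ^ 2 + X * v.2 ^ 2) ^ 2 + (C α * X ^ 2 + X + C γ) * (v.2 ^ 2) ^ 2 =
      v.1 ^ 4 + (C (1 + α) * X ^ 2 + X + C γ) * v.2 ^ 4 + 2 * (v.1 ^ 2 * X * v.2 ^ 2) := by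
    rw [C_add, C_1]
    ring
  rw [e, h2]
  ring

theorem T_mem1 (m : ℕ) (v : K[X] × K[X]) (hv : v ∈ (lt K (m + 1)) ×ˢ (mon K m)) :
    T v ∈ mon K (2 * m + 1) := by
  rw [Finset.mem_product, mem_lt, mem_mon] at hv
  obtain ⟨h1, h2, h3⟩ := hv
  have hm : (X * v.2 ^ 2 : K[X]).Monic := monic_X.mul (h2.pow 2)
  have hd : (X * v.2 ^ 2 : K[X]).natDegree = 2 * m + 1 := by
    rw [monic_X.natDegree_mul (h2.pow 2), natDegree_X, h2.natDegree_pow, h3]
    ring
  have hx : v.1.natDegree ≤ m := by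
    rcases eq_or_ne v.1 0 with h0 | h0
    · rw [h0, natDegree_zero]; exact Nat.zero_le _
    · rw [degree_eq_natDegree h0] at h1
      have : v.1.natDegree < m + 1 := by exact_mod_cast h1
      omega
  have hlt : (v.1 ^ 2).natDegree < (X * v.2 ^ 2 : K[X]).natDegree := by
    rw [hd, natDegree_pow]
    omega
  have hdeg : (v.1 ^ 2).degree < (X * v.2 ^ 2 : K[X]).degree := degree_lt_degree hlt
  rw [mem_mon]
  unfold T
  refine ⟨hm.add_of_right hdeg, ?_⟩
  rw [natDegree_add_eq_right_of_natDegree_lt hlt, hd]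

theorem T_mem0 (m : ℕ) (v : K[X] × K[X]) (hv : v ∈ (mon K m) ×ˢ (lt K m)) :
    T v ∈ mon K (2 * m) := by
  rw [Finset.mem_product, mem_lt, mem_mon] at hv
  obtain ⟨⟨h2, h3⟩, h1⟩ := hv
  have hm : (v.1 ^ 2 : K[X]).Monic := h2.pow 2
  have hd : (v.1 ^ 2 : K[X]).natDegree = 2 * m := by
    rw [h2.natDegree_pow, h3]
  have hdeg : (X * v.2 ^ 2 : K[X]).degree < (v.1 ^ 2 : K[X]).degree := by
    rcases eq_or_ne v.2 0 with h0 | h0
    · rw [h0]
      simp only [ne_eq, OfNat.ofNat_ne_zero, not_false_eq_true, zero_pow, mul_zero, degree_zero]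
      rw [bot_lt_iff_ne_bot, Ne, degree_eq_bot]
      exact hm.ne_zero
    · apply degree_lt_degree
      rw [degree_eq_natDegree h0] at h1
      have h4 : v.2.natDegree < m := by exact_mod_cast h1
      rw [hd, natDegree_mul X_ne_zero (pow_ne_zero 2 h0), natDegree_X, natDegree_pow]
      omega
  rw [mem_mon]
  unfold T
  refine ⟨hm.add_of_left hdeg, ?_⟩
  rw [natDegree_add_eq_left_of_degree_lt hdeg, hd]

theorem step1 (α γ : K) (m : ℕ) :
    {u : K[X] | u.Monic ∧ u.natDegree = 2 * m + 1 ∧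
        Irreducible (u ^ 2 + (C α * X ^ 2 + X + C γ) * (derivative u) ^ 2)}.ncard =
      (((lt K (m + 1)) ×ˢ (mon K m)).filter (fun v : K[X] × K[X] =>
        Irreducible (v.1 ^ 4 + (C (1 + α) * X ^ 2 + X + C γ) * v.2 ^ 4))).card := by
  rw [card_filter_tr _ (mon K (2 * m + 1)) T T_inj (T_mem1 m) ?_ _
    (fun u : K[X] => Irreducible (u ^ 2 + (C α * X ^ 2 + X + C γ) * (derivative u) ^ 2)) ?_]
  · rw [← Set.ncard_coe_finset]
    congr 1
    ext u
    simp only [Set.mem_ofPred_eq, Finset.coe_filter, mem_mon, and_assoc]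
  · rw [Finset.card_product, card_lt, card_mon, card_mon, ← pow_add]
    exact le_of_eq (congrArg _ (by ring))
  · intro v _
    rw [T_val]

theorem step0 (α γ : K) (m : ℕ) :
    {u : K[X] | u.Monic ∧ u.natDegree = 2 * m ∧
        Irreducible (u ^ 2 + (C α * X ^ 2 + X + C γ) * (derivative u) ^ 2)}.ncard =
      (((mon K m) ×ˢ (lt K m)).filter (fun v : K[X] × K[X] =>
        Irreducible (v.1 ^ 4 + (C (1 + α) * X ^ 2 + X + C γ) * v.2 ^ 4))).card := by
  rw [card_filter_tr _ (mon K (2 * m)) T T_inj (T_mem0 m) ?_ _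
    (fun u : K[X] => Irreducible (u ^ 2 + (C α * X ^ 2 + X + C γ) * (derivative u) ^ 2)) ?_]
  · rw [← Set.ncard_coe_finset]
    congr 1
    ext u
    simp only [Set.mem_ofPred_eq, Finset.coe_filter, mem_mon, and_assoc]
  · rw [Finset.card_product, card_lt, card_mon, card_mon, ← pow_add]
    exact le_of_eq (congrArg _ (by ring))
  · intro v _
    rw [T_val]

/-- The shift `(x, y) ↦ (x + μ y, y)`. -/
noncomputable def Sh (μ : K) (v : K[X] × K[X]) : K[X] × K[X] := (v.1 + C μ * v.2, v.2)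

theorem Sh_inj (μ : K) : Function.Injective (Sh μ) := by
  intro v w h
  unfold Sh at h
  rw [Prod.mk.injEq] at h
  obtain ⟨h1, h2⟩ := h
  rw [h2] at h1
  exact Prod.ext (add_right_cancel h1) h2

theorem Sh_val (β μ : K) (v : K[X] × K[X]) :
    (Sh μ v).1 ^ 4 + (C β * X ^ 2 + X) * (Sh μ v).2 ^ 4 =
      v.1 ^ 4 + (C β * X ^ 2 + X + C (μ ^ 4)) * v.2 ^ 4 := by
  have h2 : (2 : K[X]) = 0 := CharTwo.two_eq_zero
  unfold Sh
  have e : (v.1 + C μ * v.2) ^ 4 + (C β * X ^ 2 + X) * v.2 ^ 4 =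
      v.1 ^ 4 + (C β * X ^ 2 + X + C (μ ^ 4)) * v.2 ^ 4 +
        2 * (2 * v.1 ^ 3 * (C μ * v.2) + 3 * v.1 ^ 2 * (C μ * v.2) ^ 2 +
          2 * v.1 * (C μ * v.2) ^ 3) := by
    rw [C_pow]
    ring
  rw [e, h2]
  ring

theorem degree_C_mul_le' (μ : K) (y : K[X]) : (C μ * y).degree ≤ y.degree := by
  rcases eq_or_ne μ 0 with h | h
  · rw [h, C_0, zero_mul, degree_zero]
    exact bot_le
  · rw [degree_C_mul h]

theorem Sh_mem1 (μ : K) (m : ℕ) (v : K[X] × K[X]) (hv : v ∈ (lt K (m + 1)) ×ˢ (mon K m)) :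
    Sh μ v ∈ (lt K (m + 1)) ×ˢ (mon K m) := by
  rw [Finset.mem_product, mem_lt, mem_mon] at hv ⊢
  obtain ⟨h1, h2, h3⟩ := hv
  unfold Sh
  refine ⟨?_, h2, h3⟩
  apply lt_of_le_of_lt (degree_add_le _ _)
  apply max_lt h1
  apply lt_of_le_of_lt (degree_C_mul_le' μ v.2)
  rw [degree_eq_natDegree h2.ne_zero, h3]
  exact_mod_cast Nat.lt_succ_self m

theorem Sh_mem0 (μ : K) (m : ℕ) (v : K[X] × K[X]) (hv : v ∈ (mon K m) ×ˢ (lt K m)) :
    Sh μ v ∈ (mon K m) ×ˢ (lt K m) := by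
  rw [Finset.mem_product, mem_lt, mem_mon] at hv ⊢
  obtain ⟨⟨h2, h3⟩, h1⟩ := hv
  unfold Sh
  have hlt : (C μ * v.2).degree < v.1.degree := by
    apply lt_of_le_of_lt (degree_C_mul_le' μ v.2)
    rw [degree_eq_natDegree h2.ne_zero, h3]
    exact h1
  refine ⟨⟨h2.add_of_left hlt, ?_⟩, h1⟩
  show (v.1 + C μ * v.2).natDegree = m
  rw [natDegree_add_eq_left_of_degree_lt hlt, h3]

/-- The automorphism `X ↦ b X`. -/
noncomputable def sg (b : K) (hb : b ≠ 0) : K[X] ≃ₐ[K] K[X] :=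
  algEquivOfCompEqX (C b * X) (C b⁻¹ * X)
    (by rw [mul_comp, C_comp, X_comp, ← mul_assoc, ← C_mul, mul_inv_cancel₀ hb, C_1, one_mul])
    (by rw [mul_comp, C_comp, X_comp, ← mul_assoc, ← C_mul, inv_mul_cancel₀ hb, C_1, one_mul])

theorem sg_apply (b : K) (hb : b ≠ 0) (p : K[X]) : sg b hb p = p.comp (C b * X) := by
  unfold sg
  rw [algEquivOfCompEqX_apply, comp_eq_aeval]

theorem sg_ne (b : K) (hb : b ≠ 0) {p : K[X]} (hp : p ≠ 0) : sg b hb p ≠ 0 := by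
  intro h
  apply hp
  exact (sg b hb).injective (by rw [h, map_zero])

theorem sg_natDegree (b : K) (hb : b ≠ 0) (p : K[X]) : (sg b hb p).natDegree = p.natDegree := by
  rw [sg_apply, natDegree_comp, natDegree_C_mul_X b hb, mul_one]

theorem sg_degree (b : K) (hb : b ≠ 0) (p : K[X]) : (sg b hb p).degree = p.degree := by
  rcases eq_or_ne p 0 with h | h
  · rw [h, map_zero]
  · rw [degree_eq_natDegree h, degree_eq_natDegree (sg_ne b hb h), sg_natDegree]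

theorem sg_lead (b : K) (hb : b ≠ 0) {p : K[X]} (hp : p.Monic) :
    (sg b hb p).leadingCoeff = b ^ p.natDegree := by
  rw [sg_apply, leadingCoeff_comp, hp.leadingCoeff, one_mul, leadingCoeff_C_mul_X]
  rw [natDegree_C_mul_X b hb]
  exact one_ne_zero

/-- The scaling. -/
noncomputable def Sc (b : K) (hb : b ≠ 0) (k l : K) (v : K[X] × K[X]) : K[X] × K[X] :=
  (C k * sg b hb v.1, C (k * l) * sg b hb v.2)

theorem Sc_inj (b : K) (hb : b ≠ 0) (k l : K) (hk : k ≠ 0) (hl : l ≠ 0) :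
    Function.Injective (Sc b hb k l) := by
  intro v w h
  unfold Sc at h
  rw [Prod.mk.injEq] at h
  obtain ⟨h1, h2⟩ := h
  have h3 := (sg b hb).injective (mul_left_cancel₀ (C_ne_zero.2 hk) h1)
  have h4 := (sg b hb).injective (mul_left_cancel₀ (C_ne_zero.2 (mul_ne_zero hk hl)) h2)
  exact Prod.ext h3 h4

theorem Sc_val (β b k l : K) (hb : b ≠ 0) (hβ : β * b = 1) (hl : l ^ 4 = b) (v : K[X] × K[X]) :
    F2 (Sc b hb k l v) =
      C (k ^ 4) * sg b hb (v.1 ^ 4 + (C β * X ^ 2 + X) * v.2 ^ 4) := by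
  have h1 : sg b hb (C β * X ^ 2 + X) = C b * (X ^ 2 + X) := by
    rw [sg_apply]
    simp only [add_comp, mul_comp, C_comp, X_pow_comp, X_comp]
    have : (C β * (C b * X) ^ 2 + C b * X : K[X]) = C (β * b) * C b * X ^ 2 + C b * X := by
      rw [C_mul]
      ring
    rw [this, hβ, C_1]
    ring
  unfold F2 Sc
  rw [map_add (sg b hb), map_mul (sg b hb), map_pow (sg b hb), map_pow (sg b hb), h1]
  have h2 : (C b : K[X]) = C l ^ 4 := by rw [← C_pow, hl]
  rw [h2, C_pow, C_mul]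
  show (C k * sg b hb v.1) ^ 4 + (X ^ 2 + X) * (C k * C l * sg b hb v.2) ^ 4 = _
  ring

theorem Sc_irr (β b k l : K) (hb : b ≠ 0) (hk : k ≠ 0) (hβ : β * b = 1) (hl : l ^ 4 = b)
    (v : K[X] × K[X]) :
    Irreducible (v.1 ^ 4 + (C β * X ^ 2 + X) * v.2 ^ 4) ↔ Irreducible (F2 (Sc b hb k l v)) := by
  rw [Sc_val β b k l hb hβ hl]
  have h1 : IsUnit (C (k ^ 4) : K[X]) := isUnit_C.2 (IsUnit.mk0 _ (pow_ne_zero 4 hk))
  rw [irreducible_isUnit_mul h1]
  exact (MulEquiv.irreducible_iff (sg b hb)).symm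

theorem Sc_mem1 (b k l : K) (hb : b ≠ 0) (m : ℕ) (h : k * l * b ^ m = 1)
    (v : K[X] × K[X]) (hv : v ∈ (lt K (m + 1)) ×ˢ (mon K m)) :
    Sc b hb k l v ∈ (lt K (m + 1)) ×ˢ (mon K m) := by
  rw [Finset.mem_product, mem_lt, mem_mon] at hv ⊢
  obtain ⟨h1, h2, h3⟩ := hv
  have hkl : k * l ≠ 0 := by
    intro h0
    rw [h0, zero_mul] at h
    exact zero_ne_one h
  unfold Sc
  refine ⟨?_, ?_, ?_⟩
  · apply lt_of_le_of_lt (degree_C_mul_le' _ _)
    rw [sg_degree]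
    exact h1
  · show (C (k * l) * sg b hb v.2).leadingCoeff = 1
    rw [leadingCoeff_mul, leadingCoeff_C, sg_lead b hb h2, h3, h]
  · show (C (k * l) * sg b hb v.2).natDegree = m
    rw [natDegree_C_mul hkl, sg_natDegree, h3]

theorem Sc_mem0 (b k l : K) (hb : b ≠ 0) (m : ℕ) (h : k * b ^ m = 1)
    (v : K[X] × K[X]) (hv : v ∈ (mon K m) ×ˢ (lt K m)) :
    Sc b hb k l v ∈ (mon K m) ×ˢ (lt K m) := by
  rw [Finset.mem_product, mem_lt, mem_mon] at hv ⊢
  obtain ⟨⟨h2, h3⟩, h1⟩ := hv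
  have hk : k ≠ 0 := by
    intro h0
    rw [h0, zero_mul] at h
    exact zero_ne_one h
  unfold Sc
  refine ⟨⟨?_, ?_⟩, ?_⟩
  · show (C k * sg b hb v.1).leadingCoeff = 1
    rw [leadingCoeff_mul, leadingCoeff_C, sg_lead b hb h2, h3, h]
  · show (C k * sg b hb v.1).natDegree = m
    rw [natDegree_C_mul hk, sg_natDegree, h3]
  · apply lt_of_le_of_lt (degree_C_mul_le' _ _)
    rw [sg_degree]
    exact h1

theorem step2a (β γ : K) (m : ℕ) :
    (((lt K (m + 1)) ×ˢ (mon K m)).filter (fun v : K[X] × K[X] =>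
        Irreducible (v.1 ^ 4 + (C β * X ^ 2 + X + C γ) * v.2 ^ 4))).card =
      (((lt K (m + 1)) ×ˢ (mon K m)).filter (fun v : K[X] × K[X] =>
        Irreducible (v.1 ^ 4 + (C β * X ^ 2 + X) * v.2 ^ 4))).card := by
  obtain ⟨μ, hμ⟩ := four_root γ
  refine card_filter_tr _ _ (Sh μ) (Sh_inj μ) (Sh_mem1 μ m) le_rfl _ _ ?_
  intro v _
  rw [Sh_val, hμ]

theorem step2b (β γ : K) (m : ℕ) :
    (((mon K m) ×ˢ (lt K m)).filter (fun v : K[X] × K[X] =>
        Irreducible (v.1 ^ 4 + (C β * X ^ 2 + X + C γ) * v.2 ^ 4))).card =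
      (((mon K m) ×ˢ (lt K m)).filter (fun v : K[X] × K[X] =>
        Irreducible (v.1 ^ 4 + (C β * X ^ 2 + X) * v.2 ^ 4))).card := by
  obtain ⟨μ, hμ⟩ := four_root γ
  refine card_filter_tr _ _ (Sh μ) (Sh_inj μ) (Sh_mem0 μ m) le_rfl _ _ ?_
  intro v _
  rw [Sh_val, hμ]

theorem step3a (β : K) (hβ : β ≠ 0) (m : ℕ) :
    (((lt K (m + 1)) ×ˢ (mon K m)).filter (fun v : K[X] × K[X] =>
        Irreducible (v.1 ^ 4 + (C β * X ^ 2 + X) * v.2 ^ 4))).card = pi1 K m := by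
  have hb : β⁻¹ ≠ 0 := inv_ne_zero hβ
  obtain ⟨l, hl⟩ := four_root β⁻¹
  have hl0 : l ≠ 0 := by
    intro h
    rw [h] at hl
    apply hb
    rw [← hl]
    exact zero_pow (by norm_num)
  have hbm : β⁻¹ ^ m ≠ 0 := pow_ne_zero m hb
  have hk : (l * β⁻¹ ^ m)⁻¹ ≠ 0 := inv_ne_zero (mul_ne_zero hl0 hbm)
  unfold pi1
  refine card_filter_tr _ _ (Sc β⁻¹ hb (l * β⁻¹ ^ m)⁻¹ l) (Sc_inj _ _ _ _ hk hl0)
    (Sc_mem1 _ _ _ hb m ?_) le_rfl _ _ ?_
  · rw [mul_assoc]
    exact inv_mul_cancel₀ (mul_ne_zero hl0 hbm)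
  · intro v _
    exact Sc_irr β _ _ _ hb hk (mul_inv_cancel₀ hβ) hl v

theorem step3b (β : K) (hβ : β ≠ 0) (m : ℕ) :
    (((mon K m) ×ˢ (lt K m)).filter (fun v : K[X] × K[X] =>
        Irreducible (v.1 ^ 4 + (C β * X ^ 2 + X) * v.2 ^ 4))).card = pi0 K m := by
  have hb : β⁻¹ ≠ 0 := inv_ne_zero hβ
  obtain ⟨l, hl⟩ := four_root β⁻¹
  have hl0 : l ≠ 0 := by
    intro h
    rw [h] at hl
    apply hb
    rw [← hl]
    exact zero_pow (by norm_num)
  have hbm : β⁻¹ ^ m ≠ 0 := pow_ne_zero m hb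
  have hk : (β⁻¹ ^ m)⁻¹ ≠ 0 := inv_ne_zero hbm
  unfold pi0
  refine card_filter_tr _ _ (Sc β⁻¹ hb (β⁻¹ ^ m)⁻¹ l) (Sc_inj _ _ _ _ hk hl0)
    (Sc_mem0 _ _ _ hb m ?_) le_rfl _ _ ?_
  · exact inv_mul_cancel₀ hbm
  · intro v _
    exact Sc_irr β _ _ _ hb hk (mul_inv_cancel₀ hβ) hl v

theorem one_add_eq_zero (α : K) (h : α = 1) : 1 + α = 0 := by
  rw [h]
  exact CharTwo.add_self_eq_zero 1

theorem one_add_ne_zero (α : K) (h : α ≠ 1) : 1 + α ≠ 0 := by
  intro h0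
  apply h
  have h1 : α = -1 := by linear_combination h0
  rw [h1]
  exact CharTwo.neg_eq 1

theorem F_form (v : K[X] × K[X]) : v.1 ^ 4 + (C 0 * X ^ 2 + X) * v.2 ^ 4 = F v := by
  unfold F
  rw [C_0, zero_mul, zero_add]

end

/-- **BRG.** -/
theorem t_brg : S_brg := by
  intro K _ _ _ α γ m
  rw [step1, step0, step2a, step2b]
  refine ⟨fun h => ?_, fun h => ?_⟩
  · exact ⟨step3a _ (one_add_ne_zero α h) m, step3b _ (one_add_ne_zero α h) m⟩
  · rw [one_add_eq_zero α h]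
    unfold pri pri'
    simp only [F_form, and_self]

end Pool.Agent.H928.EX
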